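import Pool.Agent.H446.AP4.Gen
import Pool.Agent.H446.AP6.GenP

/-!
# Connections over differential rings with several parameters
-/

set_option autoImplicit false

namespace Pool.Agent.H446.AP11

open Finset MvPolynomial TensorProduct
open Pool.Agent.H446.AP4 (dR Phi Phi_tmul exists_functional map_curv curv curv_succ)

section general

variable {𝒪 : Type*} [CommRing 𝒪] {σ : Type*}

/-- The derivation of the coefficients. -/
noncomputable def mapD (δ : Derivation ℤ 𝒪 𝒪) (F : MvPolynomial σ 𝒪) : MvPolynomial σ 𝒪 :=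
  ∑ a ∈ F.support, monomial a (δ (F.coeff a))

lemma coeff_mapD (δ : Derivation ℤ 𝒪 𝒪) (F : MvPolynomial σ 𝒪) (a : σ →₀ ℕ) :
    (mapD δ F).coeff a = δ (F.coeff a) := by
  classical
  unfold mapD
  rw [coeff_sum]
  by_cases h : a ∈ F.support
  · rw [Finset.sum_eq_single a]
    · rw [coeff_monomial, if_pos rfl]
    · intro b _ hb
      rw [coeff_monomial, if_neg hb]
    · intro h'; exact absurd h h'
  · rw [notMem_support_iff.1 h, map_zero]
    refine Finset.sum_eq_zero fun b hb => ?_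
    rw [coeff_monomial, if_neg]
    rintro rfl
    exact h hb

/-- The value at `1 ⊗ z`. -/
noncomputable def evM {R : Type*} [CommRing R] (z : σ → R) : MvPolynomial σ 𝒪 →+* 𝒪 ⊗[ℤ] R :=
  eval₂Hom (Algebra.TensorProduct.includeLeftRingHom : 𝒪 →+* 𝒪 ⊗[ℤ] R) fun i => 1 ⊗ₜ[ℤ] z i

/-- The value of a monomial. -/
def mz {R : Type*} [CommRing R] (z : σ → R) (a : σ →₀ ℕ) : R := ∏ i ∈ a.support, z i ^ a i

lemma evM_eq_sum {R : Type*} [CommRing R] (z : σ → R) (F : MvPolynomial σ 𝒪) {s : Finset (σ →₀ ℕ)}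
    (hs : F.support ⊆ s) : evM z F = ∑ a ∈ s, F.coeff a ⊗ₜ[ℤ] mz z a := by
  classical
  show eval₂ (Algebra.TensorProduct.includeLeftRingHom : 𝒪 →+* 𝒪 ⊗[ℤ] R) (fun i => 1 ⊗ₜ[ℤ] z i) F = _
  rw [eval₂_eq]
  refine Eq.trans (Finset.sum_congr rfl fun a _ => ?_) (Finset.sum_subset hs fun a _ ha => ?_)
  · have h1 : ∏ i ∈ a.support, ((1 : 𝒪) ⊗ₜ[ℤ] z i) ^ a i = (1 : 𝒪) ⊗ₜ[ℤ] mz z a := by
      have h2 : ∀ i, ((1 : 𝒪) ⊗ₜ[ℤ] z i) ^ a i =
          (Algebra.TensorProduct.includeRight : R →ₐ[ℤ] 𝒪 ⊗[ℤ] R) (z i ^ a i) := by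
        intro i
        rw [Algebra.TensorProduct.tmul_pow, one_pow]
        rfl
      rw [Finset.prod_congr rfl fun i _ => h2 i, ← map_prod]
      rfl
    rw [h1, Algebra.TensorProduct.includeLeftRingHom_apply, Algebra.TensorProduct.tmul_mul_tmul, mul_one, one_mul]
  · rw [notMem_support_iff.1 ha, TensorProduct.zero_tmul]

lemma support_mapD (δ : Derivation ℤ 𝒪 𝒪) (F : MvPolynomial σ 𝒪) : (mapD δ F).support ⊆ F.support := by
  intro a ha
  rw [mem_support_iff, coeff_mapD] at ha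
  rw [mem_support_iff]
  intro h
  rw [h, map_zero] at ha
  exact ha rfl

lemma evM_mapD (δ : Derivation ℤ 𝒪 𝒪) {R : Type*} [CommRing R] (z : σ → R) (F : MvPolynomial σ 𝒪) :
    evM z (mapD δ F) = dR δ R (evM z F) := by
  rw [evM_eq_sum z F (Finset.Subset.refl _), evM_eq_sum z _ (support_mapD δ F), map_sum]
  refine Finset.sum_congr rfl fun a _ => ?_
  rw [coeff_mapD]
  rfl

/-! ### The degrees -/

lemma totalDegree_le_of_support {R S : Type*} [CommSemiring R] [CommSemiring S] {F : MvPolynomial σ R}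
    {G : MvPolynomial σ S} (h : F.support ⊆ G.support) : F.totalDegree ≤ G.totalDegree := Finset.sup_mono h

variable {r : ℕ}

lemma curv_degree (δ : Derivation ℤ 𝒪 𝒪) {Δ : MvPolynomial σ 𝒪} {B : Matrix (Fin r) (Fin r) (MvPolynomial σ 𝒪)} {D : ℕ}
    (hΔ : Δ.totalDegree ≤ D) (hB : ∀ i j, (B i j).totalDegree ≤ D) (k : ℕ) :
    ∀ i j, (curv (mapD δ) Δ B k i j).totalDegree ≤ D * k := by
  have hD : ∀ F : MvPolynomial σ 𝒪, (mapD δ F).totalDegree ≤ F.totalDegree := fun F =>
    totalDegree_le_of_support (support_mapD δ F)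
  have hn : ∀ n : ℕ, ((n : MvPolynomial σ 𝒪)).totalDegree = 0 := by
    intro n
    have h : (n : MvPolynomial σ 𝒪) = C (n : 𝒪) := by rw [map_natCast]
    rw [h, totalDegree_C]
  induction k with
  | zero =>
    intro i j
    show ((1 : Matrix (Fin r) (Fin r) (MvPolynomial σ 𝒪)) i j).totalDegree ≤ D * 0
    rw [Matrix.one_apply]
    split_ifs
    · rw [totalDegree_one]
      exact Nat.zero_le _
    · rw [totalDegree_zero]
      exact Nat.zero_le _
  | succ k ih =>
    intro i j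
    rw [curv_succ, Matrix.mul_apply]
    have h1 : (Δ * mapD δ (curv (mapD δ) Δ B k i j)).totalDegree ≤ D * (k + 1) := by
      refine (totalDegree_mul _ _).trans ?_
      have := (hD (curv (mapD δ) Δ B k i j)).trans (ih i j)
      rw [Nat.mul_succ]
      omega
    have h2 : ((k : MvPolynomial σ 𝒪) * mapD δ Δ * curv (mapD δ) Δ B k i j).totalDegree ≤ D * (k + 1) := by
      refine (totalDegree_mul _ _).trans ?_
      have h3 := totalDegree_mul (k : MvPolynomial σ 𝒪) (mapD δ Δ)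
      rw [hn] at h3
      have h4 := hD Δ
      have h5 := ih i j
      rw [Nat.mul_succ]
      omega
    have h3 : (∑ l, B i l * curv (mapD δ) Δ B k l j).totalDegree ≤ D * (k + 1) := by
      refine totalDegree_finsetSum_le fun l _ => ?_
      refine (totalDegree_mul _ _).trans ?_
      have h4 := hB i l
      have h5 := ih l j
      rw [Nat.mul_succ]
      omega
    have h4 : (Δ * mapD δ (curv (mapD δ) Δ B k i j) - (k : MvPolynomial σ 𝒪) * mapD δ Δ * curv (mapD δ) Δ B k i j).totalDegree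
        ≤ D * (k + 1) := by
      rw [sub_eq_add_neg]
      refine (totalDegree_add _ _).trans (max_le h1 ?_)
      rw [totalDegree_neg]
      exact h2
    exact (totalDegree_add _ _).trans (max_le h4 h3)

lemma pow_degree {D : ℕ} {M : Matrix (Fin r) (Fin r) (MvPolynomial σ 𝒪)} (hM : ∀ i j, (M i j).totalDegree ≤ D) (q : ℕ) :
    ∀ i j, ((M ^ q) i j).totalDegree ≤ D * q := by
  induction q with
  | zero =>
    intro i j
    rw [pow_zero, Matrix.one_apply]
    split_ifs
    · rw [totalDegree_one]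
      exact Nat.zero_le _
    · rw [totalDegree_zero]
      exact Nat.zero_le _
  | succ q ih =>
    intro i j
    rw [pow_succ, Matrix.mul_apply]
    refine totalDegree_finsetSum_le fun l _ => (totalDegree_mul _ _).trans ?_
    have h1 := ih i l
    have h2 := hM l j
    rw [Nat.mul_succ]
    omega

/-! ### Functionals -/

/-- The functional applied to the coefficients, lifted to the integers in `[0, p)`. -/
noncomputable def lowM (p : ℕ) (lam : 𝒪 →ₗ[ℤ] ZMod p) (F : MvPolynomial σ 𝒪) : MvPolynomial σ ℤ :=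
  ∑ a ∈ F.support, monomial a ((lam (F.coeff a)).val : ℤ)

lemma lowM_coeff (p : ℕ) (lam : 𝒪 →ₗ[ℤ] ZMod p) (F : MvPolynomial σ 𝒪) (a : σ →₀ ℕ) :
    (lowM p lam F).coeff a = ((lam (F.coeff a)).val : ℤ) := by
  classical
  unfold lowM
  rw [coeff_sum]
  by_cases h : a ∈ F.support
  · rw [Finset.sum_eq_single a]
    · rw [coeff_monomial, if_pos rfl]
    · intro b _ hb
      rw [coeff_monomial, if_neg hb]
    · intro h'; exact absurd h h'
  · rw [notMem_support_iff.1 h, map_zero, ZMod.val_zero, Nat.cast_zero]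
    refine Finset.sum_eq_zero fun b hb => ?_
    rw [coeff_monomial, if_neg]
    rintro rfl
    exact h hb

lemma support_lowM (p : ℕ) (lam : 𝒪 →ₗ[ℤ] ZMod p) (F : MvPolynomial σ 𝒪) : (lowM p lam F).support ⊆ F.support := by
  intro a ha
  rw [mem_support_iff, lowM_coeff] at ha
  rw [mem_support_iff]
  intro h
  rw [h, map_zero, ZMod.val_zero] at ha
  exact ha rfl

lemma Phi_evM (p : ℕ) [NeZero p] (lam : 𝒪 →ₗ[ℤ] ZMod p) {R : Type*} [CommRing R] [CharP R p] (z : σ → R)
    (F : MvPolynomial σ 𝒪) : Phi p lam R (evM z F) = aeval z (lowM p lam F) := by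
  rw [evM_eq_sum z F (Finset.Subset.refl _), aeval_def, eval₂_eq, map_sum]
  refine Eq.trans ?_ (Finset.sum_subset (support_lowM p lam F) fun a _ ha => ?_).symm
  · refine Finset.sum_congr rfl fun a _ => ?_
    rw [Phi_tmul, lowM_coeff, eq_intCast, Int.cast_natCast]
    congr 1
    rw [ZMod.castHom_apply, ZMod.natCast_val]
  · rw [notMem_support_iff.1 ha, map_zero, zero_mul]

/-- The functionals separate the elements. -/
lemma sepT {p : ℕ} [hp : Fact p.Prime] {R : Type*} [CommRing R] [CharP R p] (t : 𝒪 ⊗[ℤ] R)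
    (h : ∀ lam, Phi p lam R t = 0) : t = 0 := by
  classical
  let _ : Algebra (ZMod p) R := ZMod.algebra R p
  let e := Module.Basis.ofVectorSpace (ZMod p) R
  have hsmul : ∀ (c : ZMod p) (x : R), c • x = (c.val : ℤ) • x := by
    intro c x
    rw [Algebra.smul_def, zsmul_eq_mul]
    congr 1
    rw [Int.cast_natCast, ← ZMod.cast_eq_val]
    rfl
  have hex : ∀ t : 𝒪 ⊗[ℤ] R, ∃ u : _ →₀ 𝒪, t = u.sum fun β a => a ⊗ₜ[ℤ] e β := by
    intro t
    induction t using TensorProduct.induction_on with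
    | zero => exact ⟨0, by rw [Finsupp.sum_zero_index]⟩
    | add x y hx hy =>
      obtain ⟨u, hu⟩ := hx
      obtain ⟨v, hv⟩ := hy
      refine ⟨u + v, ?_⟩
      have h1 : (u + v).sum (fun β a => a ⊗ₜ[ℤ] e β) = u.sum (fun β a => a ⊗ₜ[ℤ] e β) +
          v.sum (fun β a => a ⊗ₜ[ℤ] e β) :=
        Finsupp.sum_add_index' (fun β => TensorProduct.zero_tmul _ _) fun β a b => TensorProduct.add_tmul _ _ _
      rw [h1, ← hu, ← hv]
    | tmul a x =>
      refine ⟨(e.repr x).mapRange (fun c => (c.val : ℤ) • a) (by rw [ZMod.val_zero, Nat.cast_zero, zero_smul]), ?_⟩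
      have h0 : ((e.repr x).mapRange (fun c => (c.val : ℤ) • a) (by rw [ZMod.val_zero, Nat.cast_zero, zero_smul])).sum
          (fun β a => a ⊗ₜ[ℤ] e β) = (e.repr x).sum fun β c => ((c.val : ℤ) • a) ⊗ₜ[ℤ] e β :=
        Finsupp.sum_mapRange_index fun β => TensorProduct.zero_tmul _ _
      rw [h0]
      have h1 : x = (e.repr x).sum fun β c => c • e β := (e.linearCombination_repr x).symm
      conv_lhs => rw [h1]
      unfold Finsupp.sum
      rw [TensorProduct.tmul_sum]
      refine Finset.sum_congr rfl fun β _ => ?_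
      beta_reduce
      rw [hsmul, TensorProduct.smul_tmul]
  obtain ⟨u, hu⟩ := hex t
  have hPhi : ∀ lam : 𝒪 →ₗ[ℤ] ZMod p, ∑ β ∈ u.support, lam (u β) • e β = 0 := by
    intro lam
    have h1 := h lam
    rw [hu] at h1
    unfold Finsupp.sum at h1
    rw [map_sum] at h1
    rw [← h1]
    refine Finset.sum_congr rfl fun β _ => ?_
    rw [Phi_tmul, Algebra.smul_def]
    rfl
  have hdiv : ∀ β ∈ u.support, ∃ g, u β = (p : 𝒪) * g := by
    intro β hβ
    by_contra hcon
    obtain ⟨lam, hlam⟩ := exists_functional hcon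
    exact hlam ((linearIndependent_iff'.1 e.linearIndependent) u.support (fun β => lam (u β)) (hPhi lam) β hβ)
  rw [hu]
  refine Finset.sum_eq_zero fun β hβ => ?_
  obtain ⟨g, hg⟩ := hdiv β hβ
  show u β ⊗ₜ[ℤ] e β = 0
  rw [hg, ← nsmul_eq_mul, ← natCast_zsmul, TensorProduct.smul_tmul, natCast_zsmul, nsmul_eq_mul,
    CharP.cast_eq_zero, zero_mul, TensorProduct.tmul_zero]

/-! ### The members -/

variable {n : ℕ}

/-- The matrix of the member. -/
noncomputable def cM (δ : Derivation ℤ 𝒪 𝒪) (Δ : MvPolynomial σ 𝒪) (B : Matrix (Fin r) (Fin r) (MvPolynomial σ 𝒪))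
    {R : Type*} [CommRing R] (z : σ → R) (p : ℕ) : Matrix (Fin r) (Fin r) (𝒪 ⊗[ℤ] R) :=
  curv (dR δ R) (evM z Δ) (B.map (evM z)) p

lemma cM_pow (δ : Derivation ℤ 𝒪 𝒪) (Δ : MvPolynomial σ 𝒪) (B : Matrix (Fin r) (Fin r) (MvPolynomial σ 𝒪))
    {R : Type*} [CommRing R] (z : σ → R) (p q : ℕ) :
    cM δ Δ B z p ^ q = (curv (mapD δ) Δ B p ^ q).map (evM z) := by
  have h1 : cM δ Δ B z p = (curv (mapD δ) Δ B p).map (evM z) := by
    rw [map_curv (evM z) (δ := mapD δ) (δ' := dR δ R) (fun F => evM_mapD δ z F)]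
    rfl
  rw [h1]
  exact (map_pow (evM z).mapMatrix _ q).symm

/-- The coefficients of the powers of the curvatures. -/
def FM (δ : Fin n → Derivation ℤ 𝒪 𝒪) (Δ : MvPolynomial σ 𝒪)
    (B : Fin n → Matrix (Fin r) (Fin r) (MvPolynomial σ 𝒪)) (q p : ℕ) : Set (MvPolynomial σ ℤ) :=
  {F | ∃ (lam : 𝒪 →ₗ[ℤ] ZMod p) (i : Fin n) (j l : Fin r),
    F = lowM p lam ((curv (mapD (δ i)) Δ (B i) p ^ q) j l)}

lemma FM_degree (δ : Fin n → Derivation ℤ 𝒪 𝒪) (Δ : MvPolynomial σ 𝒪)
    (B : Fin n → Matrix (Fin r) (Fin r) (MvPolynomial σ 𝒪)) (q : ℕ) :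
    ∃ c : ℕ, ∀ p, ∀ F ∈ FM δ Δ B q p, F.totalDegree ≤ c * p := by
  classical
  set D := Δ.totalDegree + ∑ i, ∑ j, ∑ l, (B i j l).totalDegree with hD
  have hB : ∀ i j l, (B i j l).totalDegree ≤ D := by
    intro i j l
    have h1 : (B i j l).totalDegree ≤ ∑ l, (B i j l).totalDegree :=
      Finset.single_le_sum (f := fun l => (B i j l).totalDegree) (fun _ _ => Nat.zero_le _) (mem_univ l)
    have h2 : ∑ l, (B i j l).totalDegree ≤ ∑ j, ∑ l, (B i j l).totalDegree :=
      Finset.single_le_sum (f := fun j => ∑ l, (B i j l).totalDegree) (fun _ _ => Nat.zero_le _) (mem_univ j)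
    have h3 : ∑ j, ∑ l, (B i j l).totalDegree ≤ ∑ i, ∑ j, ∑ l, (B i j l).totalDegree :=
      Finset.single_le_sum (f := fun i => ∑ j, ∑ l, (B i j l).totalDegree) (fun _ _ => Nat.zero_le _) (mem_univ i)
    omega
  refine ⟨D * q, fun p F hF => ?_⟩
  obtain ⟨lam, i, j, l, rfl⟩ := hF
  have h1 := pow_degree (curv_degree (δ i) (Δ := Δ) (B := B i) (D := D) (by omega) (hB i) p) q j l
  calc _ ≤ _ := totalDegree_le_of_support (support_lowM p lam _)
    _ ≤ D * p * q := h1
    _ = _ := by ring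

/-- The powers of the curvatures vanish. -/
lemma flatM_iff (δ : Fin n → Derivation ℤ 𝒪 𝒪) (Δ : MvPolynomial σ 𝒪)
    (B : Fin n → Matrix (Fin r) (Fin r) (MvPolynomial σ 𝒪)) (q : ℕ) {p : ℕ} [hp : Fact p.Prime] {R : Type*} [CommRing R]
    [CharP R p] (z : σ → R) : (∀ i, cM (δ i) Δ (B i) z p ^ q = 0) ↔ ∀ F ∈ FM δ Δ B q p, aeval z F = 0 := by
  constructor
  · rintro h F ⟨lam, i, j, l, rfl⟩
    have h1 := congrFun (congrFun (h i) j) l
    rw [cM_pow, Matrix.map_apply] at h1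
    rw [← Phi_evM, h1]
    exact map_zero _
  · intro h i
    refine Matrix.ext fun j l => ?_
    rw [cM_pow, Matrix.map_apply]
    refine sepT _ fun lam => ?_
    rw [Phi_evM]
    exact h _ ⟨lam, i, j, l, rfl⟩

end general

end Pool.Agent.H446.AP11
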