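import Pool.Agent.H446.AP5.Fin5
import Pool.Agent.H446.AP6.Place

/-!
# The norm of a polynomial value which is divisible at some places
-/

set_option autoImplicit false

namespace Pool.Agent.H446.AP11

open Finset Module Polynomial Pool.Agent.H446.AP
open Pool.Agent.H446.AP5
open Pool.Agent.H446.AP6 (IsPl)

variable {σ : Type*} [Fintype σ]

/-- **The product formula with some of the places.** -/
theorem nrmP {K : Type*} [Field K] [Algebra ℚ K] [FiniteDimensional ℚ K] {x : σ → K} {H : ℝ} {P : σ → ℤ[X]}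
    (hP : ∀ i, Orb (P i) ∧ Real.log (mm (P i)) ≤ (P i).natDegree * H ∧ aeval (x i) (P i) = 0)
    (f : MvPolynomial σ ℤ) {D : ℕ} (hf : ∀ a ∈ f.support, ∀ i, a i ≤ D) (hne : MvPolynomial.aeval x f ≠ 0)
    {A : ℝ} (hA : ∑ a ∈ f.support, |((f.coeff a : ℤ) : ℝ)| ≤ A) (Q : Finset ℕ) (k : ℕ → ℕ)
    (G : ℕ → Finset (K →ₐ[ℚ] ℂ))
    (hQ : ∀ p ∈ Q, p.Prime ∧ ∃ O : Subring ℂ, IsPl p O ∧ ∀ s ∈ G p, ∃ y ∈ O, s (MvPolynomial.aeval x f) =
      (p : ℂ) ^ k p * y) :
    ∑ p ∈ Q, (k p : ℝ) * (((G p).card : ℝ) / finrank ℚ K) * Real.log p ≤ Real.log A + D * (Fintype.card σ * H) := by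
  classical
  choose R hR0 hR hRH using fun i => exists_conj (hP i).1 (hP i).2.1 (hP i).2.2
  set θ := MvPolynomial.aeval x f with hθ
  set N := finrank ℚ K with hN
  have hN0 : 0 < N := finrank_pos
  have hN0' : (0 : ℝ) < N := by exact_mod_cast hN0
  have hprod : algebraMap ℚ ℂ (Algebra.norm ℚ θ) = ∏ s : K →ₐ[ℚ] ℂ, s θ := Algebra.norm_eq_prod_embeddings ℚ ℂ θ
  have hsθ : ∀ s : K →ₐ[ℚ] ℂ, s θ = ∑ a ∈ f.support, ((f.coeff a : ℤ) : ℂ) * ∏ i, s (x i) ^ a i := by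
    intro s
    rw [hθ, MvPolynomial.aeval_def, MvPolynomial.eval₂_eq', map_sum]
    refine Finset.sum_congr rfl fun a _ => ?_
    rw [map_mul, map_prod]
    congr 1
    · rw [eq_intCast, map_intCast]
    · exact Finset.prod_congr rfl fun i _ => map_pow _ _ _
  set B : ℤ := ∏ i, (R i).leadingCoeff with hB
  have hB0 : B ≠ 0 := Finset.prod_ne_zero_iff.2 fun i _ => leadingCoeff_ne_zero.2 (hR0 i)
  have hBC : (∏ i, (((R i).leadingCoeff : ℤ) : ℂ)) = (B : ℂ) := by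
    rw [hB]
    push_cast
    rfl
  -- the product over a set of conjugates
  have hint : ∀ S : Finset (K →ₐ[ℚ] ℂ), IsIntegral ℤ ((B : ℂ) ^ D * ∏ s ∈ S, s θ) := by
    intro S
    have h0 : ∏ s ∈ S, s θ = ∏ s : K →ₐ[ℚ] ℂ, ∑ a ∈ (if s ∈ S then f.support else {0}),
        (if s ∈ S then ((f.coeff a : ℤ) : ℂ) else 1) * ∏ i, s (x i) ^ a i := by
      rw [← Finset.prod_subset (subset_univ S)]
      · refine Finset.prod_congr rfl fun s hs => ?_
        rw [hsθ s, if_pos hs]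
        exact Finset.sum_congr rfl fun a _ => by rw [if_pos hs]
      · intro s _ hs
        rw [if_neg hs, Finset.sum_singleton, if_neg hs, one_mul]
        exact Finset.prod_eq_one fun i _ => by rw [Finsupp.zero_apply, pow_zero]
    rw [h0, Finset.prod_univ_sum, Finset.mul_sum]
    refine IsIntegral.sum _ fun φ hφ => ?_
    have h1 : (B : ℂ) ^ D * ∏ s : K →ₐ[ℚ] ℂ, ((if s ∈ S then ((f.coeff (φ s) : ℤ) : ℂ) else 1) *
        ∏ i, s (x i) ^ (φ s) i) =
        (∏ s : K →ₐ[ℚ] ℂ, (if s ∈ S then ((f.coeff (φ s) : ℤ) : ℂ) else 1)) *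
          ∏ i, ((((R i).leadingCoeff : ℤ) : ℂ) ^ D * ∏ s : K →ₐ[ℚ] ℂ, s (x i) ^ (φ s) i) := by
      rw [Finset.prod_mul_distrib, Finset.prod_mul_distrib, Finset.prod_pow, hBC, Finset.prod_comm]
      ring
    rw [h1]
    refine IsIntegral.mul (IsIntegral.prod _ fun s _ => ?_) (IsIntegral.prod _ fun i _ => ?_)
    · split_ifs
      · exact isIntegral_algebraMap
      · exact isIntegral_one
    refine isIntegral_pow_mul_prod (α := fun s : K →ₐ[ℚ] ℂ => s (x i)) (ic_conj (hR i)) D (fun s => φ s i) fun s => ?_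
    have h2 := Fintype.mem_piFinset.1 hφ s
    by_cases hs : s ∈ S
    · rw [if_pos hs] at h2
      exact hf _ h2 i
    · rw [if_neg hs, Finset.mem_singleton] at h2
      rw [h2, Finsupp.zero_apply]
      exact Nat.zero_le _
  have h2 : IsIntegral ℤ ((B : ℚ) ^ D * Algebra.norm ℚ θ) := by
    refine (isIntegral_algebraMap_iff (algebraMap ℚ ℂ).injective).1 ?_
    rw [map_mul, hprod, map_pow, map_intCast]
    exact hint univ
  obtain ⟨E, hE⟩ := IsIntegrallyClosed.isIntegral_iff.1 h2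
  rw [eq_intCast] at hE
  have hE0 : E ≠ 0 := by
    intro h
    rw [h, Int.cast_zero] at hE
    have h3 : (B : ℚ) ^ D ≠ 0 := pow_ne_zero _ (by exact_mod_cast hB0)
    exact (mul_ne_zero h3 (Algebra.norm_ne_zero_iff.2 hne)) hE.symm
  have hEC : (E : ℂ) = (B : ℂ) ^ D * ∏ s : K →ₐ[ℚ] ℂ, s θ := by
    rw [← hprod]
    have h3 := congrArg (algebraMap ℚ ℂ) hE
    rw [map_intCast, map_mul, map_pow, map_intCast] at h3
    exact h3
  have hdvd : ∀ p ∈ Q, (p : ℤ) ^ (k p * (G p).card) ∣ E := by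
    intro p hp
    obtain ⟨hpp, O, hO, hy⟩ := hQ p hp
    choose! y hyO hy using hy
    refine hO.pow_dvd hpp (k p * (G p).card) E ((∏ s ∈ G p, y s) * ((B : ℂ) ^ D * ∏ s ∈ (G p)ᶜ, s θ)) ?_ ?_
    · exact O.mul_mem (O.prod_mem fun s hs => hyO s hs) (hO.int _ (hint _))
    · rw [hEC, ← Finset.prod_mul_prod_compl (G p), Finset.prod_congr rfl fun s hs => hy s hs, Finset.prod_mul_distrib,
        Finset.prod_const, ← pow_mul]
      ring
  have h4 := sum_log_le Q (fun p hp => (hQ p hp).1) (fun p => k p * (G p).card) E hE0 hdvd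
  have hmm1 : ∀ i, 1 ≤ mm (R i) := fun i => one_le_mm (hR0 i)
  have hprod1 : 0 < ∏ i, mm (R i) := Finset.prod_pos fun i _ => lt_of_lt_of_le one_pos (hmm1 i)
  have hbound : |(E : ℝ)| ≤ A ^ N * (∏ i, mm (R i)) ^ D := by
    have h7 : |(E : ℝ)| = ‖(E : ℂ)‖ := by rw [Complex.norm_intCast]
    rw [h7, hEC, norm_mul, norm_pow]
    have h8 : ‖∏ s : K →ₐ[ℚ] ℂ, s θ‖ ≤ A ^ N * (∏ i, ∏ s : K →ₐ[ℚ] ℂ, max 1 ‖s (x i)‖) ^ D := by
      rw [norm_prod]
      have h9 : ∀ s : K →ₐ[ℚ] ℂ, ‖s θ‖ ≤ A * ∏ i, (max 1 ‖s (x i)‖) ^ D := by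
        intro s
        rw [hsθ s]
        refine (norm_sum_le _ _).trans ?_
        have hpos : 0 ≤ ∏ i, (max 1 ‖s (x i)‖) ^ D := Finset.prod_nonneg fun i _ => by positivity
        refine le_trans ?_ (mul_le_mul_of_nonneg_right hA hpos)
        rw [Finset.sum_mul]
        refine Finset.sum_le_sum fun a ha => ?_
        rw [norm_mul, Complex.norm_intCast, norm_prod]
        refine mul_le_mul_of_nonneg_left ?_ (abs_nonneg _)
        refine Finset.prod_le_prod (fun _ _ => norm_nonneg _) fun i _ => ?_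
        rw [norm_pow]
        calc ‖s (x i)‖ ^ (a i) ≤ (max 1 ‖s (x i)‖) ^ (a i) :=
              pow_le_pow_left₀ (norm_nonneg _) (le_max_right _ _) _
          _ ≤ _ := pow_le_pow_right₀ (le_max_left _ _) (hf a ha i)
      refine (Finset.prod_le_prod (fun _ _ => norm_nonneg _) fun s _ => h9 s).trans (le_of_eq ?_)
      rw [Finset.prod_mul_distrib, Finset.prod_const, card_univ, AlgHom.card, Finset.prod_comm, ← Finset.prod_pow]
      congr 1
      exact Finset.prod_congr rfl fun i _ => Finset.prod_pow _ _ _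
    have h10 : ∏ i, mm (R i) = ‖(B : ℂ)‖ * ∏ i, ∏ s : K →ₐ[ℚ] ℂ, max 1 ‖s (x i)‖ := by
      rw [← hBC, norm_prod, ← Finset.prod_mul_distrib]
      refine Finset.prod_congr rfl fun i _ => ?_
      rw [mm_conj (hR i), Complex.norm_intCast]
    rw [h10, mul_pow]
    calc ‖(B : ℂ)‖ ^ D * ‖∏ s : K →ₐ[ℚ] ℂ, s θ‖ ≤
        ‖(B : ℂ)‖ ^ D * (A ^ N * (∏ i, ∏ s : K →ₐ[ℚ] ℂ, max 1 ‖s (x i)‖) ^ D) :=
          mul_le_mul_of_nonneg_left h8 (by positivity)
      _ = _ := by ring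
  have hE0' : (0 : ℝ) < |(E : ℝ)| := by
    rw [abs_pos]
    exact_mod_cast hE0
  have hA0 : 0 < A := by
    have h7 : (0 : ℝ) ≤ A := le_trans (Finset.sum_nonneg fun _ _ => abs_nonneg _) hA
    rcases h7.lt_or_eq with h | h
    · exact h
    · exfalso
      rw [← h, zero_pow hN0.ne', zero_mul] at hbound
      linarith
  have h7 := Real.log_le_log hE0' hbound
  rw [Real.log_mul (pow_ne_zero _ hA0.ne') (pow_ne_zero _ hprod1.ne'), Real.log_pow, Real.log_pow,
    Real.log_prod fun i _ => (lt_of_lt_of_le one_pos (hmm1 i)).ne'] at h7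
  have h9 : ∑ i, Real.log (mm (R i)) ≤ Fintype.card σ * (N * H) := by
    calc _ ≤ ∑ _i : σ, (N : ℝ) * H := Finset.sum_le_sum fun i _ => hRH i
      _ = _ := by rw [Finset.sum_const, card_univ, nsmul_eq_mul]
  have h10 : (D : ℝ) * ∑ i, Real.log (mm (R i)) ≤ D * (Fintype.card σ * (N * H)) := by gcongr
  have h11 : (N : ℝ) * ∑ p ∈ Q, (k p : ℝ) * (((G p).card : ℝ) / N) * Real.log p =
      ∑ p ∈ Q, Real.log p * ((k p * (G p).card : ℕ) : ℝ) := by
    rw [Finset.mul_sum]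
    refine Finset.sum_congr rfl fun p _ => ?_
    push_cast
    field_simp
  have h12 : (N : ℝ) * ∑ p ∈ Q, (k p : ℝ) * (((G p).card : ℝ) / N) * Real.log p ≤
      N * (Real.log A + D * (Fintype.card σ * H)) := by
    rw [h11]
    refine h4.trans (h7.trans ?_)
    have h13 : (N : ℝ) * (Real.log A + D * (Fintype.card σ * H)) =
        N * Real.log A + D * (Fintype.card σ * (N * H)) := by ring
    rw [h13]
    linarith
  exact le_of_mul_le_mul_left h12 hN0'

end Pool.Agent.H446.AP11
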