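import Pool.Agent.H446.AP10.Step
import Pool.Agent.H446.AP11.NrmP

/-!
# The auxiliary function, with some of the places
-/

set_option autoImplicit false

namespace Pool.Agent.H446.AP11

open Finset MvPolynomial
open Pool.Agent.H446.AP (Orb mm)
open Pool.Agent.H446.AP6 (IsPl)
open Pool.Agent.H446.AP10

variable {m : ℕ}

/-- The point `ω` is good for the subring `O`. -/
def GdO (𝓕 : ℕ → Set (MvPolynomial (Fin m) ℤ)) (p : ℕ) (O : Subring ℂ) (ω : Fin m → ℂ) : Prop :=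
  (∀ i, ω i ∈ O) ∧ ∀ F ∈ 𝓕 p, ∃ y ∈ O, aeval ω F = p * y

lemma wit_seqO (A : Dat m) {C c : ℕ} (hg : DL C A.g) (hT : ∀ i j l, DL C (A.T i j l))
    {𝓕 : ℕ → Set (MvPolynomial (Fin m) ℤ)} (h𝓕 : ∀ p, ∀ F ∈ 𝓕 p, F.totalDegree ≤ c * p) {p : ℕ}
    (hW : Wit 𝓕 A p) : ∃ w : ℕ → Fin A.n → MvPolynomial (Fin A.d) ℤ,
      (∀ j l, DL (j * (C * (c + 1) * p)) (w j l)) ∧
      (∀ j, ∃ l, MvPolynomial.map (Int.castRingHom (ZMod p)) (w j l) ≠ 0) ∧
      ∀ (O : Subring ℂ) (ω : Fin m → ℂ), GdO 𝓕 p O ω → A.On ω → ∀ j, ∃ y ∈ O, A.ev ω (w j) = (p : ℂ) ^ j * y := by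
  obtain ⟨k, _, _, z, hz, hgz, F, hF, hFz⟩ := hW
  obtain ⟨w, h1, h2⟩ := exists_seq A hg hT F (N := (c + 1) * p) (le_trans (h𝓕 p F hF) (Nat.mul_le_mul_right _ (by omega)))
  refine ⟨w, fun j l => ?_, fun j => ?_, fun O ω hω hon j => ?_⟩
  · have h3 : j * (C * (c + 1) * p) = j * (C * ((c + 1) * p)) := by ring
    rw [h3]
    exact h1 j l
  · have h3 := h2 k z hz j
    exact ne_of_ev (z ∘ A.y) (fun l => mo z (A.ε l)) (w j) (by
      show A.ev z (w j) ≠ 0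
      rw [h3]
      exact pow_ne_zero _ (mul_ne_zero (pow_ne_zero _ hgz) hFz))
  · obtain ⟨hint, hall⟩ := hω
    obtain ⟨y, hy, hy'⟩ := hall F hF
    refine ⟨(aeval (ω ∘ A.y) A.g ^ ((c + 1) * p) * y) ^ j, O.pow_mem (O.mul_mem
      (O.pow_mem (aeval_mem _ (fun i => hint _) _) _) hy) _, ?_⟩
    rw [h2 ℂ ω hon j, hy']
    ring

/-- **The auxiliary function.** -/
theorem aux (A : Dat m) {c : ℕ} {𝓕 : ℕ → Set (MvPolynomial (Fin m) ℤ)}
    (h𝓕 : ∀ p, ∀ F ∈ 𝓕 p, F.totalDegree ≤ c * p) : ∃ T₀ : ℝ, ∀ H M : ℝ, 0 ≤ H → 0 ≤ M → ∀ Q : Finset ℕ,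
      (∀ p ∈ Q, p.Prime ∧ Wit 𝓕 A p) → T₀ * (H + M + 1) < ∑ p ∈ Q, Real.log p / p →
    ∃ (L : ℕ) (b : Fin A.n × (Fin A.d → Fin L) → ℤ) (D : ℕ) (k : ℕ → ℕ) (B : ℝ), b ≠ 0 ∧
      (∀ a ∈ (Rb A b).support, ∀ i, a i ≤ D) ∧
      ∑ a ∈ (Rb A b).support, |(((Rb A b).coeff a : ℤ) : ℝ)| ≤ B ∧
      (∀ p ∈ Q, ∀ (O : Subring ℂ) (ω : Fin m → ℂ), GdO 𝓕 p O ω → A.On ω →
        ∃ y ∈ O, aeval ω (Rb A b) = (p : ℂ) ^ k p * y) ∧
      ∀ ρ : ℕ → ℝ, (∀ p ∈ Q, ρ p ≤ 1) → ∑ p ∈ Q, (1 - ρ p) * (Real.log p / p) ≤ M →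
        Real.log B + D * (m * H) < ∑ p ∈ Q, (k p : ℝ) * ρ p * Real.log p := by
  classical
  obtain ⟨C, hC1, hg, hT⟩ := A.exists_bound
  set C₁ := C * (c + 1) with hC₁
  have hC₁0 : 0 < C₁ := by positivity
  have hC₁0' : (0 : ℝ) < C₁ := by exact_mod_cast hC₁0
  have hn : 0 < A.n := A.o.pos
  have hn' : (0 : ℝ) < A.n := by exact_mod_cast hn
  have hdm : A.d ≤ m := by
    have := Fintype.card_le_of_injective A.y A.hy
    rwa [Fintype.card_fin, Fintype.card_fin] at this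
  set E := ∑ l, ∑ i, A.ε l i with hEdef
  have hE : ∀ l i, A.ε l i ≤ E := by
    intro l i
    have h1 : A.ε l i ≤ ∑ i, A.ε l i := Finset.single_le_sum (f := fun i => A.ε l i) (fun _ _ => Nat.zero_le _) (mem_univ i)
    have h2 : ∑ i, A.ε l i ≤ E :=
      Finset.single_le_sum (f := fun l => ∑ i, A.ε l i) (fun _ _ => Nat.zero_le _) (mem_univ l)
    omega
  refine ⟨2 * A.n * (2 * (m + 1) * C₁) * (m + 1), fun H M hH hM Q hQ hQT₀ => ?_⟩
  set T : ℝ := 2 * A.n * (2 * (m + 1) * C₁) * (m * H + M + 1) with hTdef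
  have hQT : T < ∑ p ∈ Q, Real.log p / p := by
    refine lt_of_le_of_lt ?_ hQT₀
    rw [hTdef, mul_assoc (2 * (A.n : ℝ) * (2 * (m + 1) * C₁)) (m + 1)]
    refine mul_le_mul_of_nonneg_left ?_ (by positivity)
    have h1 : (0 : ℝ) ≤ m := Nat.cast_nonneg m
    nlinarith [mul_nonneg h1 hM]
  have hQp : ∀ p ∈ Q, p.Prime := fun p hp => (hQ p hp).1
  set W := ∑ p ∈ Q, Real.log p with hW
  have hlog : ∀ p ∈ Q, 0 ≤ Real.log p := fun p hp => Real.log_nonneg (by exact_mod_cast (hQp p hp).one_lt.le)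
  have hW0 : 0 ≤ W := Finset.sum_nonneg hlog
  obtain ⟨D, hD⟩ := exists_D A.n A.d (E * (m * H) + W)
  have hw : ∀ p ∈ Q, ∃ w : ℕ → Fin A.n → MvPolynomial (Fin A.d) ℤ,
      (∀ j l, DL (j * (C₁ * p)) (w j l)) ∧
      (∀ j, ∃ l, MvPolynomial.map (Int.castRingHom (ZMod p)) (w j l) ≠ 0) ∧
      ∀ (O : Subring ℂ) (ω : Fin m → ℂ), GdO 𝓕 p O ω → A.On ω → ∀ j, ∃ y ∈ O, A.ev ω (w j) = (p : ℂ) ^ j * y :=
    fun p hp => wit_seqO A hg hT h𝓕 (hQ p hp).2
  choose! w hw1 hw2 hw3 using hw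
  have hDL : ∀ p ∈ Q, ∀ j (h : (Fin A.d → Fin (D + 1 - j * (C₁ * p))) → ℤ) l, DL D (pol h * w p j l) := by
    intro p hp j h l i
    by_cases hL : D + 1 - j * (C₁ * p) = 0
    · have h1 : pol h = 0 := by
        unfold pol
        refine Finset.sum_eq_zero fun a _ => ?_
        have := (a i).2
        omega
      rw [h1, zero_mul]
      exact DL.zero i
    · have h1 : DL (D - j * (C₁ * p)) (pol h) := DL_pol h fun _ _ => by omega
      have h2 := (h1.mul (hw1 p hp j l)) i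
      omega
  have hcard : Fintype.card (Fin A.n × (Fin A.d → Fin (D + 1))) = A.n * (D + 1) ^ A.d := by
    rw [Fintype.card_prod, Fintype.card_fin, Fintype.card_fun, Fintype.card_fin, Fintype.card_fin]
  have hB := card_ineq Q hQp (n := A.n) (d := A.d) (m := m) (D := D) (C₁ := C₁) hn hdm
  set Λ := Lam Q A.n m D C₁ with hΛ
  obtain ⟨b, hb0, hbB, hbp⟩ := pigeon (ι := Fin A.n × (Fin A.d → Fin (D + 1))) Q (fun p hp => (hQp p hp).pos)
    (kk m D C₁) (fun p j => Fin A.d → Fin (D + 1 - j * (C₁ * p))) (fun p j => mulBox (w p j))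
    (fun p hp j h h0 => mulBox_inj (hQp p hp) (w p j) (hw2 p hp j) h (hDL p hp j h) h0) ⌊Real.exp Λ⌋₊ (by
      rw [hcard]
      have h1 : ∀ p ∈ Q, (∑ j ∈ range (kk m D C₁ p), Fintype.card (Fin A.d → Fin (D + 1 - (j + 1) * (C₁ * p)))) =
          ∑ j ∈ range (kk m D C₁ p), (D + 1 - (j + 1) * (C₁ * p)) ^ A.d := fun p _ =>
        Finset.sum_congr rfl fun j _ => by rw [Fintype.card_fun, Fintype.card_fin, Fintype.card_fin]
      refine lt_of_lt_of_eq hB ?_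
      congr 1
      exact Finset.prod_congr rfl fun p hp => by rw [h1 p hp])
  have hD1 : (0 : ℝ) < (D : ℝ) + 1 := by positivity
  refine ⟨D + 1, b, D + E, kk m D C₁, A.n * ((D : ℝ) + 1) ^ A.d * Real.exp Λ, hb0, fun a ha i => ?_, ?_,
    fun p hp O ω hGd hon => ?_, fun ρ hρ hρM => ?_⟩
  · obtain ⟨t, rfl⟩ := support_Rb A b ha
    exact expo_le A hE t i
  · refine (sum_coeff_Rb A b hbB).trans ?_
    push_cast
    refine mul_le_mul_of_nonneg_left (Nat.floor_le (Real.exp_pos _).le) (by positivity)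
  · obtain ⟨h, u, hbu⟩ := hbp p hp
    choose y hy hy' using hw3 p hp O ω hGd hon
    obtain ⟨hint, -⟩ := hGd
    refine ⟨∑ j ∈ range (kk m D C₁ p), aeval (ω ∘ A.y) (pol (h (j + 1))) * y (j + 1) + EV A (D + 1) ω u,
      O.add_mem (O.sum_mem fun j _ => O.mul_mem (aeval_mem _ (fun i => hint _) _) (hy _))
        (EV_mem A _ _ hint u), ?_⟩
    rw [aeval_Rb, hbu, map_add, map_sum, map_zsmul, mul_add, Finset.mul_sum]
    congr 1
    · refine Finset.sum_congr rfl fun j hj => ?_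
      rw [mem_range] at hj
      rw [map_zsmul, EV_mulBox A ω _ _ (hDL p hp (j + 1) (h (j + 1))), hy' (j + 1), zsmul_eq_mul]
      push_cast
      have h2 : (p : ℂ) ^ kk m D C₁ p = (p : ℂ) ^ (kk m D C₁ p - (j + 1)) * (p : ℂ) ^ (j + 1) := by
        rw [← pow_add]
        congr 1
        omega
      rw [h2]
      ring
    · rw [zsmul_eq_mul]
      push_cast
      ring
  -- the final computation
  have h2 : Real.log (A.n * ((D : ℝ) + 1) ^ A.d * Real.exp Λ) = Real.log A.n + A.d * Real.log ((D : ℝ) + 1) + Λ := by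
    rw [Real.log_mul (by positivity) (by positivity), Real.log_mul (by positivity) (by positivity), Real.log_pow,
      Real.log_exp]
  rw [h2]
  set SQ := ∑ p ∈ Q, (kk m D C₁ p : ℝ) * Real.log p with hSQ
  have h3 : ∑ p ∈ Q, (kk m D C₁ p : ℝ) * ρ p * Real.log p +
      ∑ p ∈ Q, (kk m D C₁ p : ℝ) * (1 - ρ p) * Real.log p = SQ := by
    rw [← Finset.sum_add_distrib]
    exact Finset.sum_congr rfl fun p _ => by ring
  have h4 : ∑ p ∈ Q, (kk m D C₁ p : ℝ) * (1 - ρ p) * Real.log p ≤ (D + 1) * M := by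
    calc ∑ p ∈ Q, (kk m D C₁ p : ℝ) * (1 - ρ p) * Real.log p ≤
        ∑ p ∈ Q, ((D : ℝ) + 1) * ((1 - ρ p) * (Real.log p / p)) := by
          refine Finset.sum_le_sum fun p hp => ?_
          have h6 := mul_le_mul_of_nonneg_right (kk_le (m := m) (D := D) hC₁0 (hQp p hp).pos)
            (mul_nonneg (sub_nonneg.2 (hρ p hp)) (hlog p hp))
          refine le_trans (le_of_eq ?_) (h6.trans (le_of_eq ?_))
          · ring
          · ring
      _ = (D + 1) * ∑ p ∈ Q, (1 - ρ p) * (Real.log p / p) := by rw [Finset.mul_sum]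
      _ ≤ (D + 1) * M := mul_le_mul_of_nonneg_left hρM hD1.le
  have h5 : (D + 1) * (2 * A.n * (m * H + M + 1)) - W ≤ SQ := by
    have h6 : ((D : ℝ) + 1) / (2 * (m + 1) * C₁) * ∑ p ∈ Q, Real.log p / p - W ≤ SQ := by
      rw [hSQ, hW, Finset.mul_sum, ← Finset.sum_sub_distrib]
      refine Finset.sum_le_sum fun p hp => ?_
      have h7 := mul_le_mul_of_nonneg_right (le_kk (m := m) (D := D) hC₁0 (hQp p hp).pos) (hlog p hp)
      refine le_trans (le_of_eq ?_) h7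
      ring
    have h7 : ((D : ℝ) + 1) / (2 * (m + 1) * C₁) * T = (D + 1) * (2 * A.n * (m * H + M + 1)) := by
      rw [hTdef]
      field_simp
    have h8 : ((D : ℝ) + 1) / (2 * (m + 1) * C₁) * T ≤ ((D : ℝ) + 1) / (2 * (m + 1) * C₁) * ∑ p ∈ Q, Real.log p / p :=
      mul_le_mul_of_nonneg_left hQT.le (by positivity)
    linarith
  have h6 : Λ = SQ - 1 / (2 * A.n) * SQ := by
    rw [hΛ, Lam]
    ring
  have h7 : (D + 1) * (m * H + M + 1) - W ≤ 1 / (2 * A.n) * SQ := by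
    have h8 : 1 / (2 * (A.n : ℝ)) * ((D + 1) * (2 * A.n * (m * H + M + 1)) - W) ≤ 1 / (2 * A.n) * SQ :=
      mul_le_mul_of_nonneg_left h5 (by positivity)
    have h9 : 1 / (2 * (A.n : ℝ)) * ((D + 1) * (2 * A.n * (m * H + M + 1)) - W) =
        (D + 1) * (m * H + M + 1) - 1 / (2 * A.n) * W := by
      field_simp
    have h10 : 1 / (2 * (A.n : ℝ)) * W ≤ W := by
      have h11 : (1 : ℝ) ≤ A.n := by exact_mod_cast hn
      have h12 : 1 / (2 * (A.n : ℝ)) ≤ 1 := by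
        rw [div_le_one (by positivity)]
        linarith
      calc 1 / (2 * (A.n : ℝ)) * W ≤ 1 * W := mul_le_mul_of_nonneg_right h12 hW0
        _ = W := one_mul W
    linarith
  have h8 : (((D + E : ℕ) : ℝ)) * (m * H) ≤ (D + 1) * (m * H) + E * (m * H) := by
    have h10 : 0 ≤ (m : ℝ) * H := by positivity
    calc (((D + E : ℕ) : ℝ)) * (m * H) = D * (m * H) + E * (m * H) := by push_cast; ring
      _ ≤ _ := by nlinarith
  have h9 : ((D : ℝ) + 1) * (m * H + M + 1) = (D + 1) * (m * H) + (D + 1) * M + (D + 1) := by ring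
  linarith

/-- **The step with some of the places.** -/
theorem stepP (A : Dat m) {c : ℕ} {𝓕 : ℕ → Set (MvPolynomial (Fin m) ℤ)}
    (h𝓕 : ∀ p, ∀ F ∈ 𝓕 p, F.totalDegree ≤ c * p) : ∃ T₀ : ℝ, ∀ H M : ℝ, 0 ≤ H → 0 ≤ M → ∀ Q : Finset ℕ,
      (∀ p ∈ Q, p.Prime ∧ Wit 𝓕 A p) → T₀ * (H + M + 1) < ∑ p ∈ Q, Real.log p / p →
    ∃ (L : ℕ) (b : Fin A.n × (Fin A.d → Fin L) → ℤ), b ≠ 0 ∧
      ∀ (K : Type) [Field K] [Algebra ℚ K] [FiniteDimensional ℚ K] (x : Fin m → K) (P : Fin m → Polynomial ℤ)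
        (O : ℕ → Subring ℂ) (G : ℕ → Finset (K →ₐ[ℚ] ℂ)),
      (∀ i, Orb (P i) ∧ Real.log (mm (P i)) ≤ (P i).natDegree * H ∧ Polynomial.aeval (x i) (P i) = 0) →
      (∀ p ∈ Q, IsPl p (O p) ∧ ∀ s ∈ G p, GdO 𝓕 p (O p) fun i => s (x i)) →
      ∑ p ∈ Q, (1 - ((G p).card : ℝ) / Module.finrank ℚ K) * (Real.log p / p) ≤ M → A.On x →
        aeval x (Rb A b) = 0 := by
  classical
  obtain ⟨T₀, hT₀⟩ := aux A h𝓕
  refine ⟨T₀, fun H M hH hM Q hQ hlt => ?_⟩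
  obtain ⟨L, b, D, k, B, hb, hsupp, hB, hdiv, hnum⟩ := hT₀ H M hH hM Q hQ hlt
  refine ⟨L, b, hb, fun K _ _ _ x P O G hP hG hM' hon => ?_⟩
  by_contra hne
  have hN0 : 0 < Module.finrank ℚ K := Module.finrank_pos
  have hN0' : (0 : ℝ) < Module.finrank ℚ K := by exact_mod_cast hN0
  have hval : ∀ (s : K →ₐ[ℚ] ℂ) (f : MvPolynomial (Fin m) ℤ), s (aeval x f) = aeval (fun i => s (x i)) f := by
    intro s f
    induction f using MvPolynomial.induction_on with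
    | C a => rw [aeval_C, aeval_C, eq_intCast, eq_intCast, map_intCast]
    | add f g hf hg => rw [map_add, map_add, map_add, hf, hg]
    | mul_X f i hf => rw [map_mul, map_mul, map_mul, hf, aeval_X, aeval_X]
  have hon' : ∀ s : K →ₐ[ℚ] ℂ, A.On fun i => s (x i) := by
    intro s i j
    have hy : ∀ f : MvPolynomial (Fin A.d) ℤ, aeval ((fun i => s (x i)) ∘ A.y) f = s (aeval (x ∘ A.y) f) := by
      intro f
      rw [← aeval_rename, ← hval, aeval_rename]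
    have hmo : ∀ a : Fin m →₀ ℕ, mo (fun i => s (x i)) a = s (mo x a) := by
      intro a
      unfold mo
      rw [map_prod]
      exact Finset.prod_congr rfl fun i _ => (map_pow _ _ _).symm
    rw [hy, hmo]
    show s (aeval (x ∘ A.y) A.g) * s (x i) * s (mo x (A.ε j)) = _
    rw [← map_mul, ← map_mul, hon i j, map_sum]
    refine Finset.sum_congr rfl fun l _ => ?_
    rw [map_mul, hy, hmo]
  have h1 := nrmP hP (Rb A b) hsupp hne hB Q k G fun p hp => ⟨(hQ p hp).1, O p, (hG p hp).1, fun s hs => by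
    rw [hval]
    exact hdiv p hp (O p) _ ((hG p hp).2 s hs) (hon' s)⟩
  rw [Fintype.card_fin] at h1
  have h2 := hnum (fun p => ((G p).card : ℝ) / Module.finrank ℚ K) (fun p _ => by
    rw [div_le_one hN0']
    have h3 : (G p).card ≤ Fintype.card (K →ₐ[ℚ] ℂ) := Finset.card_le_univ _
    rw [AlgHom.card] at h3
    exact_mod_cast h3) hM'
  linarith

end Pool.Agent.H446.AP11
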