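import Pool.Agent.H446.AP10.Conv
import Pool.Agent.H446.AP11.StepP
import Pool.Agent.H446.AP11.GenM

/-!
# Dense sets of points with a large proportion of good places
-/

set_option autoImplicit false

namespace Pool.Agent.H446.AP11

open Finset MvPolynomial TensorProduct
open Pool.Agent.H446.AP (Orb mm)
open Pool.Agent.H446.AP4 (pInt)
open Pool.Agent.H446.AP6 (IsPl OA ZZ KO mkO_eq_zero_iff isPl_OA charP_KO' intCast_notMem)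
open Pool.Agent.H446.AP5 (algebraic_of)
open Pool.Agent.H446.AP10

variable {m : ℕ}

/-- The field generated by the coordinates. -/
noncomputable abbrev Kf (ω : Fin m → ℂ) : IntermediateField ℚ ℂ := IntermediateField.adjoin ℚ (Set.range ω)

/-- The point with coordinates in its field. -/
noncomputable def gn (ω : Fin m → ℂ) : Fin m → Kf ω := fun i => ⟨ω i, IntermediateField.subset_adjoin _ _ ⟨i, rfl⟩⟩

lemma aeval_gn (ω : Fin m → ℂ) (f : MvPolynomial (Fin m) ℤ) : (Kf ω).val (aeval (gn ω) f) = aeval ω f :=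
  map_aeval_int ((Kf ω).val : Kf ω →+* ℂ) (gn ω) f

lemma finite_Kf {ω : Fin m → ℂ} (h : ∀ i, IsAlgebraic ℚ (ω i)) : FiniteDimensional ℚ (Kf ω) :=
  IntermediateField.finiteDimensional_adjoin (by
    rintro _ ⟨i, rfl⟩
    exact (h i).isIntegral)

/-- The proportion of the good conjugates. -/
noncomputable def rho (Gd : (Fin m → ℂ) → Prop) (ω : Fin m → ℂ) : ℝ :=
  (Nat.card {s : Kf ω →ₐ[ℚ] ℂ // Gd fun i => s (gn ω i)} : ℝ) / Module.finrank ℚ (Kf ω)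

/-- The points with a large proportion of good places. -/
def GpP (Gd : ℕ → (Fin m → ℂ) → Prop) (H M : ℝ) : Set (Fin m → ℂ) :=
  {ω | (∀ i, ∃ P : Polynomial ℤ, Orb P ∧ Real.log (mm P) ≤ P.natDegree * H ∧ Polynomial.aeval (ω i) P = 0) ∧
    ∀ Q : Finset ℕ, (∀ p ∈ Q, p.Prime) → ∑ p ∈ Q, (1 - rho (Gd p) ω) * (Real.log p / p) ≤ M}

/-- **The exceptional primes of a variety with a dense set of points.** -/
theorem denseP {c : ℕ} {𝓕 : ℕ → Set (MvPolynomial (Fin m) ℤ)} (h𝓕 : ∀ p, ∀ F ∈ 𝓕 p, F.totalDegree ≤ c * p)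
    {𝔞 : Ideal (MvPolynomial (Fin m) ℤ)} (hp : 𝔞.IsPrime) (h0 : ∀ n : ℤ, C n ∈ 𝔞 → n = 0) :
    ∃ g ∉ 𝔞, ∃ T₀ : ℝ, ∀ H M : ℝ, 0 ≤ H → 0 ≤ M → ∀ (Gd : ℕ → (Fin m → ℂ) → Prop) (O : ℕ → Subring ℂ),
      (∀ p : ℕ, p.Prime → IsPl p (O p) ∧ ∀ ω, Gd p ω → GdO 𝓕 p (O p) ω) →
      (∀ R, (∀ ω ∈ GpP Gd H M, (∀ f ∈ 𝔞, aeval ω f = 0) → aeval ω R = 0) → R ∈ 𝔞) →
      ∀ Q : Finset ℕ, (∀ p ∈ Q, p.Prime ∧ Non 𝓕 𝔞 g p) → ∑ p ∈ Q, Real.log p / p ≤ T₀ * (H + M + 1) := by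
  classical
  obtain ⟨A, h1, h2, h3⟩ := exists_dat_of_prime hp h0
  obtain ⟨T₀, hT₀⟩ := stepP A h𝓕
  refine ⟨rename A.y A.g, h1, T₀, fun H M hH hM Gd O hO hdense Q hQ => ?_⟩
  by_contra hlt
  push Not at hlt
  obtain ⟨L, b, hb, h4⟩ := hT₀ H M hH hM Q (fun p hp => by
    refine ⟨(hQ p hp).1, ?_⟩
    obtain ⟨k, i1, i2, z, hz, hgz, hF⟩ := (hQ p hp).2
    refine ⟨k, i1, i2, z, on_of_rel A fun i j => hz _ (h2 i j), ?_, hF⟩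
    rwa [aeval_rename] at hgz) hlt
  refine h3 L b hb (hdense _ fun ω hω hz => ?_)
  obtain ⟨hω1, hω2⟩ := hω
  choose P hP using hω1
  have halg : ∀ i, IsAlgebraic ℚ (ω i) := fun i => algebraic_of (hP i).1 (hP i).2.2
  have hfd := finite_Kf halg
  have hz' : ∀ f : MvPolynomial (Fin m) ℤ, aeval ω f = 0 → aeval (gn ω) f = 0 := fun f hf => by
    have h5 : (Kf ω).val (aeval (gn ω) f) = (Kf ω).val 0 := by rw [aeval_gn, map_zero, hf]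
    exact (Kf ω).val.injective h5
  have h5 := h4 (Kf ω) (gn ω) P O (fun p => univ.filter fun s => Gd p fun i => s (gn ω i)) (fun i => by
    refine ⟨(hP i).1, (hP i).2.1, ?_⟩
    have h6 := (hP i).2.2
    have h7 : (Polynomial.aeval (ω i) (P i)) = (Kf ω).val (Polynomial.aeval (gn ω i) (P i)) := by
      rw [Polynomial.aeval_def, Polynomial.aeval_def]
      show _ = ((Kf ω).val : Kf ω →+* ℂ) _
      rw [Polynomial.hom_eval₂]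
      congr 1
    rw [h7] at h6
    have h8 : (Kf ω).val (Polynomial.aeval (gn ω i) (P i)) = (Kf ω).val 0 := by rw [h6, map_zero]
    exact (Kf ω).val.injective h8) (fun p hp => ⟨(hO p (hQ p hp).1).1, fun s hs => by
      rw [mem_filter] at hs
      exact (hO p (hQ p hp).1).2 _ hs.2⟩) (by
    refine le_trans (le_of_eq ?_) (hω2 Q fun p hp => (hQ p hp).1)
    refine Finset.sum_congr rfl fun p _ => ?_
    unfold rho
    rw [Nat.card_eq_fintype_card, Fintype.card_subtype])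
    (on_of_rel A fun i j => hz' _ (hz _ (h2 i j)))
  rw [← aeval_gn, h5, map_zero]

/-- **Almost all primes that are not exceptional are good.** -/
theorem convP {𝓕 : ℕ → Set (MvPolynomial (Fin m) ℤ)} {𝔞 : Ideal (MvPolynomial (Fin m) ℤ)}
    {g : MvPolynomial (Fin m) ℤ} {ω : Fin m → ℂ} (hω : ∀ i, IsAlgebraic ℚ (ω i))
    (hz : ∀ f ∈ 𝔞, aeval ω f = 0) (hg : aeval ω g ≠ 0) :
    ∃ d : ℕ, 0 < d ∧ ∀ p : ℕ, p.Prime → ¬ p ∣ d → ¬ Non 𝓕 𝔞 g p →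
      ∀ s : Kf ω →ₐ[ℚ] ℂ, Gd 𝓕 p fun i => s (gn ω i) := by
  classical
  have hfd := finite_Kf hω
  have hval : ∀ (s : Kf ω →ₐ[ℚ] ℂ) (f : MvPolynomial (Fin m) ℤ), aeval (fun i => s (gn ω i)) f = s (aeval (gn ω) f) :=
    fun s f => (map_aeval_int (s : Kf ω →+* ℂ) (gn ω) f).symm
  have h1 : ∀ s : Kf ω →ₐ[ℚ] ℂ, ∃ d : ℕ, 0 < d ∧ ∀ p : ℕ, p.Prime → ¬ p ∣ d → ¬ Non 𝓕 𝔞 g p →
      Gd 𝓕 p fun i => s (gn ω i) := by
    intro s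
    refine conv (g := g) (𝔞 := 𝔞) (fun i => ?_) (fun f hf => ?_) ?_
    · exact (IsFractionRing.isAlgebraic_iff ℤ ℚ ℂ).1 (alg_int s (gn ω i))
    · rw [hval]
      have h5 : (Kf ω).val (aeval (gn ω) f) = (Kf ω).val 0 := by rw [aeval_gn, map_zero, hz f hf]
      rw [(Kf ω).val.injective h5, map_zero]
    · rw [hval]
      intro h
      apply hg
      rw [← aeval_gn, s.injective (h.trans (map_zero s).symm), map_zero]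
  choose d hd h2 using h1
  refine ⟨∏ s, d s, Finset.prod_pos fun s _ => hd s, fun p hp hpd hnon s => h2 s p hp (fun h => hpd ?_) hnon⟩
  exact h.trans (Finset.dvd_prod_of_mem d (mem_univ s))

/-! ### Local rings -/

/-- The local ring at `𝔓` of the field generated by the coordinates of `ω`. -/
noncomputable def OKv (𝔓 : Ideal ZZ) [𝔓.IsPrime] (ω : Fin m → ℂ) : Subring ℂ := OA 𝔓 ⊓ (Kf ω).toSubring

lemma OKv_le (𝔓 : Ideal ZZ) [𝔓.IsPrime] (ω : Fin m → ℂ) : OKv 𝔓 ω ≤ OA 𝔓 := inf_le_left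

lemma pInt_le {p : ℕ} [hp : Fact p.Prime] {𝔓 : Ideal ZZ} [h𝔓 : 𝔓.IsPrime] (hp𝔓 : ((p : ℕ) : ZZ) ∈ 𝔓) :
    pInt p ≤ OA 𝔓 := by
  rintro z ⟨s, hs, hs'⟩
  refine ⟨(s : ZZ), intCast_notMem hp.out h𝔓 hp𝔓 hs, ?_⟩
  have h1 : (((s : ℤ) : ZZ) : ℂ) = (s : ℂ) := by push_cast; rfl
  rwa [h1]

variable {𝒪 : Type*} [CommRing 𝒪] {r n : ℕ}

/-- A good place. -/
def GoodV (δ : Fin n → Derivation ℤ 𝒪 𝒪) (Δ : MvPolynomial (Fin m) 𝒪)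
    (B : Fin n → Matrix (Fin r) (Fin r) (MvPolynomial (Fin m) 𝒪)) (q p : ℕ) (𝔓 : Ideal ZZ) [𝔓.IsPrime]
    (ω : Fin m → ℂ) : Prop :=
  ∃ h : ∀ i, ω i ∈ OKv 𝔓 ω, ∀ i,
    cM (δ i) Δ (B i) (fun j => Ideal.Quotient.mk (Ideal.span {((p : ℕ) : OKv 𝔓 ω)}) ⟨ω j, h j⟩) p ^ q = 0

lemma aeval_mk_iff {p : ℕ} {O : Subring ℂ} {R : Type*} [CommRing R] (ψ : O →+* R)
    (hψ : ∀ z : O, ψ z = 0 ↔ ∃ y ∈ O, (z : ℂ) = p * y) {ω : Fin m → ℂ} (h : ∀ i, ω i ∈ O) (F : MvPolynomial (Fin m) ℤ) :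
    aeval (fun j => ψ ⟨ω j, h j⟩) F = 0 ↔ ∃ y ∈ O, aeval ω F = p * y := by
  rw [← map_aeval_int ψ (fun j => (⟨ω j, h j⟩ : O)) F, hψ]
  have h1 : ((aeval (fun j => (⟨ω j, h j⟩ : O)) F : O) : ℂ) = aeval ω F :=
    map_aeval_int O.subtype (fun j => (⟨ω j, h j⟩ : O)) F
  rw [h1]

lemma goodV_iff (δ : Fin n → Derivation ℤ 𝒪 𝒪) (Δ : MvPolynomial (Fin m) 𝒪)
    (B : Fin n → Matrix (Fin r) (Fin r) (MvPolynomial (Fin m) 𝒪)) (q : ℕ) {p : ℕ} (hp : p.Prime)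
    {𝔓 : Ideal ZZ} [h𝔓 : 𝔓.IsPrime] (hp𝔓 : ((p : ℕ) : ZZ) ∈ 𝔓) (ω : Fin m → ℂ) :
    GoodV δ Δ B q p 𝔓 ω ↔ GdO (FM δ Δ B q) p (OKv 𝔓 ω) ω := by
  have hfact : Fact p.Prime := ⟨hp⟩
  have hch : CharP (KO p (OKv 𝔓 ω)) p := charP_KO' (isPl_OA hp hp𝔓) (OKv_le 𝔓 ω)
  constructor
  · rintro ⟨h, hflat⟩
    refine ⟨h, fun F hF => ?_⟩
    exact (aeval_mk_iff (Ideal.Quotient.mk (Ideal.span {((p : ℕ) : OKv 𝔓 ω)})) mkO_eq_zero_iff h F).1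
      ((flatM_iff δ Δ B q _).1 hflat F hF)
  · rintro ⟨h, hall⟩
    refine ⟨h, (flatM_iff δ Δ B q _).2 fun F hF => ?_⟩
    exact (aeval_mk_iff (Ideal.Quotient.mk (Ideal.span {((p : ℕ) : OKv 𝔓 ω)})) mkO_eq_zero_iff h F).2 (hall F hF)

lemma GdO.of_goodV {δ : Fin n → Derivation ℤ 𝒪 𝒪} {Δ : MvPolynomial (Fin m) 𝒪}
    {B : Fin n → Matrix (Fin r) (Fin r) (MvPolynomial (Fin m) 𝒪)} {q p : ℕ} (hp : p.Prime)
    {𝔓 : Ideal ZZ} [h𝔓 : 𝔓.IsPrime] (hp𝔓 : ((p : ℕ) : ZZ) ∈ 𝔓) {ω : Fin m → ℂ}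
    (h : GoodV δ Δ B q p 𝔓 ω) : GdO (FM δ Δ B q) p (OA 𝔓) ω := by
  obtain ⟨h1, h2⟩ := (goodV_iff δ Δ B q hp hp𝔓 ω).1 h
  refine ⟨fun i => OKv_le _ _ (h1 i), fun F hF => ?_⟩
  obtain ⟨y, hy, hy'⟩ := h2 F hF
  exact ⟨y, OKv_le _ _ hy, hy'⟩

lemma goodV_of_Gd {δ : Fin n → Derivation ℤ 𝒪 𝒪} {Δ : MvPolynomial (Fin m) 𝒪}
    {B : Fin n → Matrix (Fin r) (Fin r) (MvPolynomial (Fin m) 𝒪)} {q p : ℕ} (hp : p.Prime)
    {𝔓 : Ideal ZZ} [h𝔓 : 𝔓.IsPrime] (hp𝔓 : ((p : ℕ) : ZZ) ∈ 𝔓) {ω : Fin m → ℂ}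
    (h : Gd (FM δ Δ B q) p ω) : GoodV δ Δ B q p 𝔓 ω := by
  have hfact : Fact p.Prime := ⟨hp⟩
  obtain ⟨_, h1, h2⟩ := h
  have hp0 : (p : ℂ) ≠ 0 := by exact_mod_cast hp.ne_zero
  have hmem : ∀ i, ω i ∈ Kf ω := fun i => IntermediateField.subset_adjoin _ _ ⟨i, rfl⟩
  rw [goodV_iff δ Δ B q hp hp𝔓]
  refine ⟨fun i => Subring.mem_inf.2 ⟨pInt_le hp𝔓 (h1 i), hmem i⟩, fun F hF => ?_⟩
  obtain ⟨y, hy, hy'⟩ := h2 F hF
  refine ⟨y, Subring.mem_inf.2 ⟨pInt_le hp𝔓 hy, ?_⟩, hy'⟩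
  have h3 : y = aeval ω F / p := by rw [hy', mul_div_cancel_left₀ _ hp0]
  rw [h3]
  show aeval ω F / p ∈ Kf ω
  exact div_mem (by rw [← aeval_gn]; exact (aeval (gn ω) F).2) (natCast_mem _ p)

/-- The values are compatible with ring homomorphisms. -/
lemma evM_map {σ : Type*} {R S : Type*} [CommRing R] [CommRing S] (ψ : R →+* S) (z : σ → R) (F : MvPolynomial σ 𝒪) :
    Algebra.TensorProduct.map (AlgHom.id ℤ 𝒪) ψ.toIntAlgHom (evM z F) = evM (fun i => ψ (z i)) F := by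
  have h : (Algebra.TensorProduct.map (AlgHom.id ℤ 𝒪) ψ.toIntAlgHom : TensorProduct ℤ 𝒪 R →+* TensorProduct ℤ 𝒪 S).comp
      (evM z) = evM (fun i => ψ (z i)) := by
    refine MvPolynomial.ringHom_ext (fun a => ?_) fun i => ?_
    · rw [RingHom.comp_apply]
      unfold evM
      rw [coe_eval₂Hom, coe_eval₂Hom, eval₂_C, eval₂_C]
      show Algebra.TensorProduct.map (AlgHom.id ℤ 𝒪) ψ.toIntAlgHom (a ⊗ₜ[ℤ] (1 : R)) = a ⊗ₜ[ℤ] (1 : S)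
      rw [Algebra.TensorProduct.map_tmul, map_one]
      rfl
    · rw [RingHom.comp_apply]
      unfold evM
      rw [coe_eval₂Hom, coe_eval₂Hom, eval₂_X, eval₂_X]
      show Algebra.TensorProduct.map (AlgHom.id ℤ 𝒪) ψ.toIntAlgHom ((1 : 𝒪) ⊗ₜ[ℤ] z i) = (1 : 𝒪) ⊗ₜ[ℤ] ψ (z i)
      rw [Algebra.TensorProduct.map_tmul, map_one]
      rfl
  exact congrArg (fun φ : MvPolynomial σ 𝒪 →+* TensorProduct ℤ 𝒪 S => φ F) h

end Pool.Agent.H446.AP11
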